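import Pool.Agent.Run7.h987.RT.Iface

/-!
# Piece INTERP of the project of helper987 (interpolation of prescribed values)
-/

set_option autoImplicit false

open MeasureTheory Set SchwartzMap
open scoped FourierTransform SchwartzMap ContDiff Pointwise Topology ENNReal

noncomputable section

namespace Run7.h705.RT

open Pool.Agent.Run7.h987.BL Pool.Agent.Run7.h987.RT

universe u

theorem t_INTERP (hKER : P_KER) (hSYN : P_SYN.{u}) (hFIX : P_FIX.{u}) : P_INTERP.{u} := by
  intro k p r κ hk hr hκ hκr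
  obtain ⟨ψ, hψ0, hψz, hψs⟩ := hKER k p r κ hk hr hκ hκr
  obtain ⟨R0, hR0, hfix⟩ := hFIX k ψ κ hκ
  obtain ⟨C, hC0, hsyn⟩ := hSYN k ψ κ (cub p r) hκ hψs
  refine ⟨R0, 2 * C, by positivity, ?_⟩
  intro X _ _ _ R L B ρ u hR hB hρ hu
  obtain ⟨D, hD, hDeq⟩ := hfix X R L B ρ u hR hB hρ hu
  obtain ⟨F, hF, hFs⟩ := hsyn X R L (2 * B) ρ D (hR0.trans hR) (by positivity) hρ hD
  refine ⟨F, ?_, ?_⟩
  · have h1 : C * (2 * B) = 2 * C * B := by ring
    rw [← h1]
    exact hF
  · intro x n z hz
    have h1 := hFs x (pos κ n z)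
    have h2 := hDeq x n z hz
    have h3 : HasSum (fun i : Zk k × Zk k => if i = (n, z) then D x n z else 0) (D x n z) :=
      hasSum_ite_eq _ _
    have h4 := h1.sub h3
    have h5 : (fun i : Zk k × Zk k => (ρ x i.1 i.2 : ℂ) * D x i.1 i.2 * ψ (pos κ n z - pos κ i.1 i.2) -
        if i = (n, z) then D x n z else 0) = fun i => if i.1 = n then 0 else
        (ρ x i.1 i.2 : ℂ) * D x i.1 i.2 * ψ (pos κ n z - pos κ i.1 i.2) := by
      funext i
      obtain ⟨n', z'⟩ := i
      simp only [Prod.mk.injEq]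
      by_cases hn : n' = n
      · subst hn
        have h6 : pos κ n' z - pos κ n' z' = κ • (vec (z - z') : E k) := by
          unfold pos
          rw [vec_sub, smul_sub]
          abel
        by_cases hzz : z' = z
        · subst hzz
          simp [hψ0, hz]
        · have h7 : ψ (κ • (vec (z - z') : E k)) = 0 := hψz _ (sub_ne_zero.2 (Ne.symm hzz))
          simp [h6, h7, hzz]
      · simp [hn]
    rw [h5] at h4
    rw [h4.tsum_eq] at h2
    rw [← h2]
    ring

end Run7.h705.RT
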