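import Pool.Agent.Run7.h987.RT.Iface

/-!
# Piece SYN of the project of helper987 (synthesis of band-limited families)
-/

set_option autoImplicit false

open MeasureTheory Set SchwartzMap
open scoped FourierTransform SchwartzMap ContDiff Pointwise Topology ENNReal

noncomputable section

namespace Run7.h705.RT

open Pool.Agent.Run7.h987.BL Pool.Agent.Run7.h987.RT

universe u

/-! ### translates -/

lemma inv_translate {k : ℕ} (g : 𝓢(E k, ℂ)) (p ξ : E k) :
    𝓕⁻ (g.compSubConstCLM ℂ (-p)) ξ =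
      Complex.exp (((-2 * Real.pi * inner ℝ p ξ : ℝ) : ℂ) * Complex.I) * 𝓕⁻ g ξ := by
  rw [SchwartzMap.fourierInv_coe, SchwartzMap.fourierInv_coe, Real.fourierInv_eq', Real.fourierInv_eq',
    ← integral_const_mul]
  rw [← integral_sub_right_eq_self (fun v => Complex.exp (((2 * Real.pi * inner ℝ v ξ : ℝ) : ℂ) * Complex.I) •
    (g.compSubConstCLM ℂ (-p)) v) p]
  congr 1
  ext v
  rw [SchwartzMap.compSubConstCLM_apply]
  simp only [smul_eq_mul]
  rw [← mul_assoc, ← Complex.exp_add]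
  congr 2
  · rw [inner_sub_left]
    push_cast
    ring
  · abel

lemma spec_translate {k : ℕ} {ψ : 𝓢(E k, ℂ)} {S : Set (E k)} (hψ : SpecIn (fun t => ψ t) S) (p : E k) :
    SpecIn (fun t => ψ (t - p)) S := by
  intro u hu
  set v : 𝓢(E k, ℂ) := 𝓕⁻ ((𝓕 u).compSubConstCLM ℂ (-p)) with hv
  have h1 : tsupport v ⊆ tsupport u := by
    apply closure_mono
    intro ξ hξ
    rw [Function.mem_support] at hξ ⊢
    intro h
    apply hξ
    rw [hv, inv_translate, FourierTransform.fourierInv_fourier_eq, h, mul_zero]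
  have h2 := hψ v (hu.mono_left h1)
  rw [hv, FourierTransform.fourier_fourierInv_eq] at h2
  have h3 : ∫ t, ψ (t - p) * 𝓕 u t = ∫ t, ψ t * ((𝓕 u).compSubConstCLM ℂ (-p)) t := by
    refine Eq.trans ?_ (integral_sub_right_eq_self
      (fun t => ψ t * ((𝓕 u).compSubConstCLM ℂ (-p)) t) p)
    congr 1
    ext t
    rw [SchwartzMap.compSubConstCLM_apply]
    congr 2
    abel
  show ∫ t, ψ (t - p) * 𝓕 u t = 0
  rw [h3]
  exact h2

/-! ### positions -/

lemma norm_vec_ge_one {k : ℕ} {z : Zk k} (h : z ≠ 0) : 1 ≤ ‖(vec z : E k)‖ := by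
  obtain ⟨i, hi⟩ : ∃ i, z i ≠ 0 := by
    by_contra hc
    push Not at hc
    exact h (funext hc)
  have h1 : |(vec z : E k) i| ≤ ‖(vec z : E k)‖ := PiLp.norm_apply_le (vec z : E k) i
  rw [vec_apply] at h1
  have h2 : (1 : ℝ) ≤ |(z i : ℝ)| := by
    have := Int.one_le_abs hi
    exact_mod_cast this
  linarith

lemma mem_box {k : ℕ} {z : Zk k} {r : ℝ} (h : ‖(vec z : E k)‖ ≤ r) :
    z ∈ Finset.Icc (fun _ : Fin k => -⌈r⌉) (fun _ : Fin k => ⌈r⌉) := by
  rw [Finset.mem_Icc]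
  have h1 : ∀ i, |(z i : ℝ)| ≤ r := fun i => by
    have h2 : |(vec z : E k) i| ≤ ‖(vec z : E k)‖ := PiLp.norm_apply_le (vec z : E k) i
    rw [vec_apply] at h2
    linarith
  constructor
  · intro i
    have h3 := (abs_le.1 (h1 i)).1
    have h4 := Int.le_ceil r
    have h5 : (-⌈r⌉ : ℝ) ≤ z i := by linarith
    exact_mod_cast h5
  · intro i
    have h3 := (abs_le.1 (h1 i)).2
    have h4 := Int.le_ceil r
    have h5 : (z i : ℝ) ≤ ⌈r⌉ := by linarith
    exact_mod_cast h5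

variable {k : ℕ} {X : Type u} [TopologicalSpace X] [AddAction (Zk k) X]

/-- the terms of the synthesis series -/
def term (κ : ℝ) (ψ : 𝓢(E k, ℂ)) (ρ : X → Zk k → Zk k → ℝ) (D : X → Zk k → Zk k → ℂ) (x : X)
    (i : Zk k × Zk k) (t : E k) : ℂ :=
  (ρ x i.1 i.2 : ℂ) * D x i.1 i.2 * ψ (t - pos κ i.1 i.2)

lemma active_sep {κ R L : ℝ} {ρ : X → Zk k → Zk k → ℝ} (hκ : 0 < κ) (hR : κ ≤ R)
    (hρ : Wts κ R L ρ) (x : X) (i j : {i : Zk k × Zk k // 0 < ρ x i.1 i.2}) (hij : i ≠ j) :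
    κ ≤ ‖pos κ i.1.1 i.1.2 - pos κ j.1.1 j.1.2‖ := by
  obtain ⟨⟨n, z⟩, hi⟩ := i
  obtain ⟨⟨n', z'⟩, hj⟩ := j
  simp only at hi hj ⊢
  by_cases hn : n = n'
  · subst hn
    have hz : z ≠ z' := by
      rintro rfl
      exact hij rfl
    have h1 : pos κ n z - pos κ n z' = κ • (vec (z - z') : E k) := by
      unfold pos
      rw [vec_sub, smul_sub]
      abel
    rw [h1, norm_smul, Real.norm_of_nonneg hκ.le]
    have := norm_vec_ge_one (sub_ne_zero.2 hz)
    nlinarith
  · exact hR.trans (hρ.sep x n z n' z' hn hi hj)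

lemma term_le {κ R L B : ℝ} {ψ : 𝓢(E k, ℂ)} {ρ : X → Zk k → Zk k → ℝ} {D : X → Zk k → Zk k → ℂ}
    (hρ : Wts κ R L ρ) (hD : Coef B D) (x : X) (i : Zk k × Zk k) (t : E k) :
    ‖term κ ψ ρ D x i t‖ ≤ B * ‖ψ (t - pos κ i.1 i.2)‖ := by
  unfold term
  rw [norm_mul, norm_mul, Complex.norm_real, Real.norm_of_nonneg (hρ.nonneg _ _ _)]
  apply mul_le_mul_of_nonneg_right _ (norm_nonneg _)
  have h1 := hρ.le_one x i.1 i.2
  have h2 := hρ.nonneg x i.1 i.2
  have h3 := hD.bdd x i.1 i.2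
  have h4 := norm_nonneg (D x i.1 i.2)
  nlinarith

/-- sums of terms are bounded by sums over active indices -/
lemma sum_le {κ R L B c : ℝ} {ψ : 𝓢(E k, ℂ)} {ρ : X → Zk k → Zk k → ℝ} {D : X → Zk k → Zk k → ℂ}
    (hB : 0 ≤ B) (hρ : Wts κ R L ρ) (hD : Coef B D) (x : X) (t : E k) (s : Finset (Zk k × Zk k))
    (h : ∀ s' : Finset {i : Zk k × Zk k // 0 < ρ x i.1 i.2}, (∀ i ∈ s', i.1 ∈ s) →
      ∑ i ∈ s', ‖ψ (t - pos κ i.1.1 i.1.2)‖ ≤ c) :
    ∑ i ∈ s, ‖term κ ψ ρ D x i t‖ ≤ B * c := by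
  classical
  have h1 : ∑ i ∈ s, ‖term κ ψ ρ D x i t‖ = ∑ i ∈ s.filter (fun i => 0 < ρ x i.1 i.2),
      ‖term κ ψ ρ D x i t‖ := by
    rw [Finset.sum_filter]
    apply Finset.sum_congr rfl
    intro i _
    split_ifs with h0
    · rfl
    · have h2 : ρ x i.1 i.2 = 0 := le_antisymm (not_lt.1 h0) (hρ.nonneg _ _ _)
      unfold term
      rw [h2]
      simp
  rw [h1]
  have h2 : ∑ i ∈ s.filter (fun i => 0 < ρ x i.1 i.2), ‖term κ ψ ρ D x i t‖ ≤
      ∑ i ∈ s.filter (fun i => 0 < ρ x i.1 i.2), B * ‖ψ (t - pos κ i.1 i.2)‖ :=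
    Finset.sum_le_sum fun i _ => term_le hρ hD x i t
  refine h2.trans ?_
  rw [← Finset.mul_sum]
  apply mul_le_mul_of_nonneg_left _ hB
  have h3 := h (s.subtype (fun i => 0 < ρ x i.1 i.2)) (fun i hi => Finset.mem_subtype.1 hi)
  rw [Finset.sum_subtype_eq_sum_filter (f := fun i : Zk k × Zk k => ‖ψ (t - pos κ i.1 i.2)‖)] at h3
  exact h3

theorem t_SYN (hSS : P_SEPSUM) : P_SYN.{u} := by
  intro k ψ κ S hκ hψ
  obtain ⟨⟨C, hC0, hC⟩, htail⟩ := hSS k ψ κ hκ
  refine ⟨C, hC0, ?_⟩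
  intro X _ _ R L B ρ D hR hB hρ hD
  -- bound of finite sums
  have hbd : ∀ (x : X) (t : E k) (s : Finset (Zk k × Zk k)),
      ∑ i ∈ s, ‖term κ ψ ρ D x i t‖ ≤ B * C := by
    intro x t s
    apply sum_le hB hρ hD
    intro s' _
    exact hC _ (fun i : {i : Zk k × Zk k // 0 < ρ x i.1 i.2} => pos κ i.1.1 i.1.2)
      (active_sep hκ hR hρ x) t s'
  have hsumn : ∀ (x : X) (t : E k), Summable fun i => ‖term κ ψ ρ D x i t‖ := fun x t =>
    summable_of_sum_le (fun _ => norm_nonneg _) (hbd x t)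
  have hsum : ∀ (x : X) (t : E k), Summable fun i => term κ ψ ρ D x i t := fun x t =>
    (hsumn x t).of_norm
  -- tails
  have htl : ∀ ε : ℝ, 0 < ε → ∀ t0 : E k, ∃ T : Finset (Zk k × Zk k), ∀ (x : X) (t : E k),
      ‖t - t0‖ ≤ 1 → ‖(∑' i, term κ ψ ρ D x i t) - ∑ i ∈ T, term κ ψ ρ D x i t‖ ≤ B * ε := by
    classical
    intro ε hε t0
    obtain ⟨R', hR'0, hR'⟩ := htail ε hε
    set T : Finset (Zk k × Zk k) :=
      (Finset.Icc (fun _ : Fin k => -⌈R' + L + ‖t0‖ + 1⌉) (fun _ : Fin k => ⌈R' + L + ‖t0‖ + 1⌉)) ×ˢ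
      (Finset.Icc (fun _ : Fin k => -⌈L / κ⌉) (fun _ : Fin k => ⌈L / κ⌉)) with hT
    refine ⟨T, fun x t ht => ?_⟩
    have hlim : Filter.Tendsto (fun s : Finset (Zk k × Zk k) =>
        ‖∑ i ∈ s, term κ ψ ρ D x i t - ∑ i ∈ T, term κ ψ ρ D x i t‖) Filter.atTop
        (𝓝 ‖(∑' i, term κ ψ ρ D x i t) - ∑ i ∈ T, term κ ψ ρ D x i t‖) :=
      (((hsum x t).hasSum).sub_const _).norm
    refine le_of_tendsto hlim ?_
    filter_upwards [Filter.eventually_ge_atTop T] with s hs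
    rw [← Finset.sum_sdiff (show T ⊆ s from hs), add_sub_cancel_right]
    refine (norm_sum_le _ _).trans ?_
    apply sum_le hB hρ hD
    intro s' hs'
    refine hR' _ (fun i : {i : Zk k × Zk k // 0 < ρ x i.1 i.2} => pos κ i.1.1 i.1.2)
      (active_sep hκ hR hρ x) t s' ?_
    intro i hi
    have h1 := (Finset.mem_sdiff.1 (hs' i hi)).2
    have h2 : ‖κ • (vec i.1.2 : E k)‖ ≤ L := hρ.loc x _ _ i.2
    have h3 : i.1.2 ∈ Finset.Icc (fun _ : Fin k => -⌈L / κ⌉) (fun _ : Fin k => ⌈L / κ⌉) := by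
      apply mem_box
      rw [norm_smul, Real.norm_of_nonneg hκ.le] at h2
      rw [le_div_iff₀ hκ]
      linarith
    have h4 : ¬ ‖(vec i.1.1 : E k)‖ ≤ R' + L + ‖t0‖ + 1 := by
      intro h5
      apply h1
      rw [hT, Finset.mem_product]
      exact ⟨mem_box h5, h3⟩
    push Not at h4
    have h5 : (vec i.1.1 : E k) = t - (t - pos κ i.1.1 i.1.2) - κ • (vec i.1.2 : E k) := by
      unfold pos
      abel
    have h6 : ‖(vec i.1.1 : E k)‖ ≤ ‖t‖ + ‖t - pos κ i.1.1 i.1.2‖ + ‖κ • (vec i.1.2 : E k)‖ := by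
      calc ‖(vec i.1.1 : E k)‖ = ‖t - (t - pos κ i.1.1 i.1.2) - κ • (vec i.1.2 : E k)‖ := by rw [← h5]
        _ ≤ ‖t - (t - pos κ i.1.1 i.1.2)‖ + ‖κ • (vec i.1.2 : E k)‖ := norm_sub_le _ _
        _ ≤ _ := by
          have := norm_sub_le t (t - pos κ i.1.1 i.1.2)
          linarith
    have h7 : ‖t‖ ≤ ‖t0‖ + 1 := by
      have := norm_sub_norm_le t t0
      linarith
    linarith
  -- continuity
  have hcont : Continuous (fun p : X × E k => ∑' i, term κ ψ ρ D p.1 i p.2) := by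
    apply continuous_of_locally_uniform_approx_of_continuousAt
    rintro ⟨x0, t0⟩ U hU
    obtain ⟨ε, hε, hεU⟩ := Metric.mem_uniformity_dist.1 hU
    have hB1 : 0 < B + 1 := by linarith
    obtain ⟨T, hT⟩ := htl (ε / (2 * (B + 1))) (by positivity) t0
    refine ⟨Set.univ ×ˢ Metric.ball t0 1, ?_, fun p => ∑ i ∈ T, term κ ψ ρ D p.1 i p.2, ?_, ?_⟩
    · exact prod_mem_nhds Filter.univ_mem (Metric.ball_mem_nhds _ one_pos)
    · apply Continuous.continuousAt
      apply continuous_finsetSum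
      intro i _
      unfold term
      have c1 : Continuous (fun p : X × E k => (ρ p.1 i.1 i.2 : ℂ)) :=
        Complex.continuous_ofReal.comp ((hρ.cont i.1 i.2).comp continuous_fst)
      have c2 : Continuous (fun p : X × E k => D p.1 i.1 i.2) := (hD.cont i.1 i.2).comp continuous_fst
      have c3 : Continuous (fun p : X × E k => ψ (p.2 - pos κ i.1 i.2)) :=
        ψ.continuous.comp (continuous_snd.sub continuous_const)
      exact (c1.mul c2).mul c3
    · rintro ⟨x, t⟩ hp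
      apply hεU
      rw [dist_eq_norm]
      have ht : ‖t - t0‖ ≤ 1 := by
        have := hp.2
        rw [Metric.mem_ball, dist_eq_norm] at this
        exact this.le
      refine (hT x t ht).trans_lt ?_
      rw [mul_div_assoc', div_lt_iff₀ (by positivity)]
      nlinarith
  set Fc : C(X, C(E k, ℂ)) :=
    ContinuousMap.curry ⟨fun p : X × E k => ∑' i, term κ ψ ρ D p.1 i p.2, hcont⟩ with hFc
  set F : X → C(E k, ℂ) := fun x => Fc x with hF
  have hFa : ∀ x t, F x t = ∑' i, term κ ψ ρ D x i t := fun x t => rfl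
  refine ⟨F, ⟨?_, ?_, ?_, ?_⟩, ?_⟩
  · exact Fc.continuous
  · intro x t
    rw [hFa]
    refine (norm_tsum_le_tsum_norm (hsumn x t)).trans ?_
    rw [mul_comm]
    exact (hsumn x t).tsum_le_of_sum_le (hbd x t)
  · -- spectrum
    intro x u hu
    simp only [hFa]
    set G : Zk k × Zk k → E k → ℂ := fun i t => term κ ψ ρ D x i t * 𝓕 u t with hG
    have hbc : ∀ i, BC (fun t => term κ ψ ρ D x i t) (B * C) := by
      intro i
      constructor
      · unfold term
        exact continuous_const.mul (ψ.continuous.comp (continuous_id.sub continuous_const))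
      · intro t
        have := hbd x t {i}
        rwa [Finset.sum_singleton] at this
    have hGint : ∀ i, Integrable (G i) := fun i => (hbc i).integrable _
    have hzero : ∀ i, ∫ t, G i t = 0 := by
      intro i
      have h1 := spec_translate hψ (pos κ i.1 i.2) u hu
      have h2 : ∀ t, G i t = ((ρ x i.1 i.2 : ℂ) * D x i.1 i.2) * (ψ (t - pos κ i.1 i.2) * 𝓕 u t) := by
        intro t
        simp only [hG, term]
        ring
      simp only [h2]
      rw [integral_const_mul, h1, mul_zero]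
    have hs : Summable fun i => ∫ t, ‖G i t‖ := by
      refine summable_of_sum_le (c := B * C * ∫ t, ‖𝓕 u t‖)
        (fun i => integral_nonneg fun _ => norm_nonneg _) fun s => ?_
      rw [← integral_finsetSum _ fun i _ => (hGint i).norm, ← integral_const_mul]
      refine integral_mono_of_nonneg (Filter.Eventually.of_forall fun t =>
        Finset.sum_nonneg fun _ _ => norm_nonneg _) ((𝓕 u).integrable.norm.const_mul _)
        (Filter.Eventually.of_forall fun t => ?_)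
      simp only [hG, norm_mul]
      rw [← Finset.sum_mul]
      exact mul_le_mul_of_nonneg_right (hbd x t s) (norm_nonneg _)
    have key := hasSum_integral_of_summable_integral_norm hGint hs
    simp only [hzero] at key
    have h8 : ∀ t, (∑' i, term κ ψ ρ D x i t) * 𝓕 u t = ∑' i, G i t := by
      intro t
      rw [← tsum_mul_right]
    simp only [h8]
    exact key.unique hasSum_zero
  · -- equivariance
    intro q x t
    rw [hFa, hFa]
    rw [← (((Equiv.addRight q).prodCongr (Equiv.refl (Zk k))).tsum_eq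
      (fun i => term κ ψ ρ D x i (t + vec q)))]
    apply tsum_congr
    rintro ⟨n, z⟩
    unfold term
    simp only [Equiv.prodCongr_apply, Prod.map, Equiv.coe_addRight, Equiv.refl_apply]
    rw [hρ.equi, hD.equi]
    congr 2
    unfold pos
    rw [vec_add]
    abel
  · intro x t
    rw [hFa]
    exact (hsum x t).hasSum

end Run7.h705.RT
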